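import Pool.Agent.Helper65.CG.Defs2
import Pool.Agent.Helper65.Clique.Count

/-!
# Project UB, module K4: copositivity for m at least 6
-/

set_option autoImplicit false

namespace Pool.Agent.Helper65.CG

open Pool.Agent.Helper65.CliqueGame

variable {n q m : ℕ}

namespace K4

theorem rho_eq (hm : 1 ≤ m) {x : ℕ} (hx : x ≤ m) : rho m x = Real.logb 2 (1 + (x : ℝ)) := by
  unfold rho
  rcases Nat.lt_or_ge x m with h | h
  · rw [Nat.div_eq_of_lt h, Nat.mod_eq_of_lt h]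
    simp
  · have hxm : x = m := le_antisymm hx h
    subst hxm
    rw [Nat.div_self hm, Nat.mod_self]
    simp [add_comm]

theorem lin_small (hm : 1 ≤ m) {r : ℕ} (hr : r ≤ m) :
    Real.logb 2 ((m : ℝ) + 1) / m * r ≤ Real.logb 2 (1 + (r : ℝ)) := by
  have h1 := Pool.Agent.Helper65.CliqueGame.rpow_le_one_add hm hr
  have h2 : Real.logb 2 (((m : ℝ) + 1) ^ ((r : ℝ) / m)) ≤ Real.logb 2 (1 + (r : ℝ)) :=
    Real.logb_le_logb_of_le (by norm_num) (by positivity) h1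
  rw [Real.logb_rpow_eq_mul_logb_of_pos (by positivity)] at h2
  calc Real.logb 2 ((m : ℝ) + 1) / m * r = (r : ℝ) / m * Real.logb 2 ((m : ℝ) + 1) := by ring
    _ ≤ _ := h2

theorem rho_lin (hm : 1 ≤ m) (x : ℕ) : Real.logb 2 ((m : ℝ) + 1) / m * x ≤ rho m x := by
  have hm0 : (0 : ℝ) < m := by exact_mod_cast hm
  have h1 : (x : ℝ) = m * ((x / m : ℕ) : ℝ) + ((x % m : ℕ) : ℝ) := by
    exact_mod_cast (Nat.div_add_mod x m).symm
  have h2 := lin_small hm (Nat.mod_lt x hm).le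
  unfold rho
  calc Real.logb 2 ((m : ℝ) + 1) / m * x = ((x / m : ℕ) : ℝ) * Real.logb 2 ((m : ℝ) + 1) +
        Real.logb 2 ((m : ℝ) + 1) / m * ((x % m : ℕ) : ℝ) := by
        conv_lhs => rw [h1]
        field_simp
    _ ≤ _ := by linarith

/-- `(m+1)^17 ≤ 2^(8m)` for `m ≥ 6` -/
theorem pow_le (m : ℕ) (hm : 6 ≤ m) : (m + 1) ^ 17 ≤ 2 ^ (8 * m) := by
  induction m, hm using Nat.le_induction with
  | base => norm_num
  | succ m hm ih =>
    have h1 : (7 * (m + 2)) ^ 17 ≤ (8 * (m + 1)) ^ 17 := Nat.pow_le_pow_left (by omega) 17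
    rw [mul_pow, mul_pow] at h1
    have h2 : (8 : ℕ) ^ 17 ≤ 256 * 7 ^ 17 := by norm_num
    have h3 : 7 ^ 17 * (m + 2) ^ 17 ≤ 7 ^ 17 * (256 * (m + 1) ^ 17) := by
      calc 7 ^ 17 * (m + 2) ^ 17 ≤ 8 ^ 17 * (m + 1) ^ 17 := h1
        _ ≤ 256 * 7 ^ 17 * (m + 1) ^ 17 := Nat.mul_le_mul_right _ h2
        _ = _ := by ring
    have h4 : (m + 2) ^ 17 ≤ 256 * (m + 1) ^ 17 := Nat.le_of_mul_le_mul_left h3 (by positivity)
    calc (m + 1 + 1) ^ 17 ≤ 256 * (m + 1) ^ 17 := h4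
      _ ≤ 256 * 2 ^ (8 * m) := Nat.mul_le_mul_left _ ih
      _ = 2 ^ (8 * (m + 1)) := by rw [mul_add, pow_add]; norm_num; ring

theorem log_pos (hm : 6 ≤ m) : 0 < Real.logb 2 ((m : ℝ) + 1) := by
  apply Real.logb_pos (by norm_num)
  have : (6 : ℝ) ≤ m := by exact_mod_cast hm
  linarith

theorem s_ge (hm : 6 ≤ m) : 17 / 8 ≤ (m : ℝ) / Real.logb 2 ((m : ℝ) + 1) := by
  have h1 := pow_le m hm
  have h2 : (((m : ℝ) + 1)) ^ 17 ≤ (2 : ℝ) ^ (8 * m) := by exact_mod_cast h1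
  have h3 : Real.logb 2 (((m : ℝ) + 1) ^ 17) ≤ Real.logb 2 ((2 : ℝ) ^ (8 * m)) :=
    Real.logb_le_logb_of_le (by norm_num) (by positivity) h2
  rw [Real.logb_pow, Real.logb_pow, Real.logb_self_eq_one (by norm_num)] at h3
  rw [le_div_iff₀ (log_pos hm)]
  push_cast at h3
  linarith

theorem Cst_eq (hm : 6 ≤ m) : Cst m = (m : ℝ) / Real.logb 2 ((m : ℝ) + 1) := by
  unfold Cst
  rw [if_neg (by omega), if_neg (by omega)]

theorem lin (hm : 6 ≤ m) (x : ℕ) : (x : ℝ) ≤ Cst m * rho m x := by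
  rw [Cst_eq hm]
  have h1 := rho_lin (m := m) (by omega) x
  have h2 := log_pos hm
  have h3 : (0 : ℝ) < m := by
    have : 0 < m := by omega
    exact_mod_cast this
  have h4 : (0 : ℝ) ≤ (m : ℝ) / Real.logb 2 ((m : ℝ) + 1) := by positivity
  calc (x : ℝ) = (m : ℝ) / Real.logb 2 ((m : ℝ) + 1) *
        (Real.logb 2 ((m : ℝ) + 1) / m * x) := by field_simp
    _ ≤ _ := mul_le_mul_of_nonneg_left h1 h4

theorem rho_one (hm : 6 ≤ m) : rho m 1 = 1 := by
  rw [rho_eq (by omega) (by omega)]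
  norm_num

theorem rho_two (hm : 6 ≤ m) : 3 / 2 ≤ rho m 2 := by
  rw [rho_eq (by omega) (by omega), Real.le_logb_iff_rpow_le (by norm_num) (by norm_num)]
  have h1 : ((2 : ℝ) ^ (3 / 2 : ℝ)) ^ 2 ≤ 3 ^ 2 := by
    rw [← Real.rpow_natCast, ← Real.rpow_mul (by norm_num)]
    norm_num
  have h2 : (0 : ℝ) ≤ 1 + ((2 : ℕ) : ℝ) := by norm_num
  have h3 : (1 : ℝ) + ((2 : ℕ) : ℝ) = 3 := by norm_num
  rw [h3]
  exact le_of_sq_le_sq h1 (by norm_num)

theorem rho_three (hm : 6 ≤ m) : rho m 3 = 2 := by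
  rw [rho_eq (by omega) (by omega)]
  have h3 : (1 : ℝ) + ((3 : ℕ) : ℝ) = 2 ^ (2 : ℕ) := by norm_num
  rw [h3, Real.logb_pow, Real.logb_self_eq_one (by norm_num)]
  norm_num

/-- the indicator of `k = 1` -/
noncomputable def ia (k : ℕ) : ℝ := if k = 1 then 1 else 0

/-- the indicator of `k ≥ 4` -/
noncomputable def ib (k : ℕ) : ℝ := if 4 ≤ k then 1 else 0

theorem one_le (hm : 6 ≤ m) {l : ℕ} (hl : 1 ≤ l) :
    1 / 8 * (ia l) - ib l ≤ Cst m * rho m l - (1 + l) := by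
  have hs := s_ge hm
  rw [← Cst_eq hm] at hs
  rcases Nat.lt_or_ge l 4 with h | h
  · have hb : ib l = 0 := if_neg (by omega)
    rw [hb]
    have : l = 1 ∨ l = 2 ∨ l = 3 := by omega
    rcases this with rfl | rfl | rfl
    · have ha : ia 1 = 1 := if_pos rfl
      rw [ha, rho_one hm]
      push_cast
      linarith
    · have ha : ia 2 = 0 := if_neg (by norm_num)
      rw [ha]
      have h2 := rho_two hm
      push_cast
      nlinarith
    · have ha : ia 3 = 0 := if_neg (by norm_num)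
      rw [ha, rho_three hm]
      push_cast
      linarith
  · have hb : ib l = 1 := if_pos h
    have ha : ia l = 0 := if_neg (by omega)
    rw [ha, hb]
    have := lin hm l
    linarith

theorem pair (hm : 6 ≤ m) {k l : ℕ} (hk : 1 ≤ k) (hl : 1 ≤ l) :
    1 / 8 * (ia k * ia l) - ia k * ib l - ib k * ia l + 8 * (ib k * ib l) ≤
      Cst m * rho m (k * l) - (k + l) := by
  rcases Nat.lt_or_ge k 2 with h | h
  · have hk1 : k = 1 := by omega
    subst hk1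
    have ha : ia 1 = 1 := if_pos rfl
    have hb : ib 1 = 0 := if_neg (by norm_num)
    have := one_le hm hl
    rw [ha, hb, Nat.one_mul]
    push_cast
    linarith
  · rcases Nat.lt_or_ge l 2 with h' | h'
    · have hl1 : l = 1 := by omega
      subst hl1
      have ha : ia 1 = 1 := if_pos rfl
      have hb : ib 1 = 0 := if_neg (by norm_num)
      have := one_le hm hk
      rw [ha, hb, Nat.mul_one]
      push_cast
      linarith
    · have ha : ia k = 0 := if_neg (by omega)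
      have ha' : ia l = 0 := if_neg (by omega)
      rw [ha, ha']
      have h1 := lin hm (k * l)
      push_cast at h1
      have hkr : (2 : ℝ) ≤ k := by exact_mod_cast h
      have hlr : (2 : ℝ) ≤ l := by exact_mod_cast h'
      by_cases h4 : 4 ≤ k ∧ 4 ≤ l
      · have hb : ib k = 1 := if_pos h4.1
        have hb' : ib l = 1 := if_pos h4.2
        rw [hb, hb']
        have hk4 : (4 : ℝ) ≤ k := by exact_mod_cast h4.1
        have hl4 : (4 : ℝ) ≤ l := by exact_mod_cast h4.2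
        nlinarith [mul_nonneg (sub_nonneg.2 hk4) (sub_nonneg.2 hl4)]
      · have hb : ib k * ib l = 0 := by
          rcases not_and_or.1 h4 with h5 | h5
          · rw [ib, if_neg h5, zero_mul]
          · rw [ib, ib, if_neg h5, mul_zero]
        rw [hb]
        nlinarith [mul_nonneg (sub_nonneg.2 hkr) (sub_nonneg.2 hlr)]

end K4

theorem copos_large (hm : 6 ≤ m) {ι : Type} (T : Finset ι) (k : ι → ℕ)
    (hk : ∀ i ∈ T, 1 ≤ k i) :
    2 * (T.card : ℝ) * ∑ i ∈ T, (k i : ℝ) ≤ Cst m * ∑ i ∈ T, ∑ j ∈ T, rho m (k i * k j) := by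
  have h1 : ∑ i ∈ T, ∑ j ∈ T, (1 / 8 * (K4.ia (k i) * K4.ia (k j)) - K4.ia (k i) * K4.ib (k j) -
      K4.ib (k i) * K4.ia (k j) + 8 * (K4.ib (k i) * K4.ib (k j))) ≤
      ∑ i ∈ T, ∑ j ∈ T, (Cst m * rho m (k i * k j) - (k i + k j)) :=
    Finset.sum_le_sum fun i hi => Finset.sum_le_sum fun j hj => K4.pair hm (hk i hi) (hk j hj)
  have h2 : ∑ i ∈ T, ∑ j ∈ T, (1 / 8 * (K4.ia (k i) * K4.ia (k j)) - K4.ia (k i) * K4.ib (k j) -
      K4.ib (k i) * K4.ia (k j) + 8 * (K4.ib (k i) * K4.ib (k j))) =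
      1 / 8 * ((∑ i ∈ T, K4.ia (k i)) * ∑ i ∈ T, K4.ia (k i)) -
      (∑ i ∈ T, K4.ia (k i)) * (∑ i ∈ T, K4.ib (k i)) -
      (∑ i ∈ T, K4.ib (k i)) * (∑ i ∈ T, K4.ia (k i)) +
      8 * ((∑ i ∈ T, K4.ib (k i)) * ∑ i ∈ T, K4.ib (k i)) := by
    simp only [Finset.sum_add_distrib, Finset.sum_sub_distrib, ← Finset.mul_sum,
      ← Finset.sum_mul]
  have h3 : ∑ i ∈ T, ∑ j ∈ T, (Cst m * rho m (k i * k j) - ((k i : ℝ) + k j)) =
      Cst m * ∑ i ∈ T, ∑ j ∈ T, rho m (k i * k j) - 2 * (T.card : ℝ) * ∑ i ∈ T, (k i : ℝ) := by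
    simp only [Finset.sum_add_distrib, Finset.sum_sub_distrib, ← Finset.mul_sum,
      Finset.sum_const, nsmul_eq_mul]
    ring
  rw [h2, h3] at h1
  nlinarith [sq_nonneg ((∑ i ∈ T, K4.ia (k i)) - 8 * ∑ i ∈ T, K4.ib (k i))]

end Pool.Agent.Helper65.CG
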